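import Pool.Agent.H559Z.Mah.Wron

/-!
The determinant estimate: values of a transcendental entire function at `2s+2` points of an
arithmetic progression of step `1/t^3` cannot all be very close to rationals of height `t^(s+1)`.
-/

set_option autoImplicit false

namespace Pool.Agent.H559Z.Mah

open Matrix Filter Topology

theorem perturb {D : ℕ} (ι : Fin D → ℕ) (hι : Function.Injective ι) :
    ∃ δ > 0, ∃ K₁ : ℝ, ∀ u : ℝ, 0 ≤ u → u ≤ 1 → ∀ E : Matrix (Fin D) (Fin D) ℂ,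
      (∀ i m, ‖E i m‖ < δ) →
      (vandermonde (fun i => (ι i : ℂ) + u) + E).det ≠ 0 ∧
      ‖(vandermonde (fun i => (ι i : ℂ) + u) + E).det‖ ≤ K₁ := by
  let g : (Fin D → Fin D → ℂ) → ℂ := fun M => (Matrix.of M).det
  have hg : Continuous g := Continuous.matrix_det (A := fun M : Fin D → Fin D → ℂ => Matrix.of M)
    continuous_id
  let c : ℂ := (vandermonde (fun i => (ι i : ℂ))).det
  have hc : c ≠ 0 := det_vandermonde_ne_zero_iff.mpr fun i j h => hι (by exact_mod_cast h)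
  have hc' : 0 < ‖c‖ := norm_pos_iff.mpr hc
  let V : ℝ → (Fin D → Fin D → ℂ) := fun u i m => ((ι i : ℂ) + u) ^ (m : ℕ)
  have hV : Continuous V := by
    refine continuous_pi fun i => continuous_pi fun m => ?_
    simp only [V]
    fun_prop
  have hK : IsCompact (V '' Set.Icc 0 1) := isCompact_Icc.image hV
  have hU : IsOpen (g ⁻¹' Metric.ball c ‖c‖) := Metric.isOpen_ball.preimage hg
  obtain ⟨δ, hδ, hsub⟩ := hK.exists_thickening_subset_open hU (by
    rintro _ ⟨u, -, rfl⟩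
    have : g (V u) = c := det_vandermonde_add (fun i => (ι i : ℂ)) u
    simp [this, hc])
  refine ⟨δ, hδ, 2 * ‖c‖, fun u h0 h1 E hE => ?_⟩
  have hmem : (fun i m => V u i m + E i m) ∈ Metric.thickening δ (V '' Set.Icc 0 1) := by
    rw [Metric.mem_thickening_iff]
    refine ⟨V u, ⟨u, ⟨h0, h1⟩, rfl⟩, ?_⟩
    rw [dist_pi_lt_iff hδ]
    intro i
    rw [dist_pi_lt_iff hδ]
    intro m
    simpa using hE i m
  have h2 : ‖(vandermonde (fun i => (ι i : ℂ) + u) + E).det - c‖ < ‖c‖ := by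
    have := hsub hmem
    rw [Set.mem_preimage, Metric.mem_ball, dist_eq_norm] at this
    exact this
  constructor
  · intro h
    rw [h] at h2
    simp at h2
  · have := norm_sub_norm_le (vandermonde (fun i => (ι i : ℂ) + u) + E).det c
    linarith

theorem taylor_bound {φ : ℂ → ℂ} (hφ : Differentiable ℂ φ) (z : ℂ) (D : ℕ) :
    ∃ C : ℝ, ∀ᶠ h in 𝓝 (0 : ℂ),
      ‖φ (z + h) - ∑ m : Fin D, h ^ (m : ℕ) * (iteratedDeriv m φ z / (m : ℕ).factorial)‖
        ≤ C * ‖h‖ ^ D := by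
  have h1 := ((hφ.analyticAt z).hasFPowerSeriesAt.isBigO_sub_partialSum_pow D).bound
  obtain ⟨C, hC⟩ := h1
  refine ⟨C, hC.mono fun h hh => ?_⟩
  rw [norm_pow, norm_norm] at hh
  refine le_of_eq_of_le ?_ hh
  congr 2
  unfold FormalMultilinearSeries.partialSum
  rw [← Fin.sum_univ_eq_sum_range
    (fun k => (FormalMultilinearSeries.ofScalars ℂ
      (fun n => iteratedDeriv n φ z / (n.factorial : ℂ)) k) fun _ => h)]
  apply Finset.sum_congr rfl
  intro m _
  simp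

theorem sum_exp (s : ℕ) :
    ∑ n : Fin (2 * s + 2), (n : ℕ) = ∑ n : Fin (2 * s + 2), (n : ℕ) / 2 + (s + 1) ^ 2 := by
  rw [Fin.sum_univ_eq_sum_range (fun n => n), Fin.sum_univ_eq_sum_range (fun n => n / 2)]
  induction s with
  | zero => decide
  | succ s ih =>
    have e : 2 * (s + 1) + 2 = (2 * s + 2) + 1 + 1 := by ring
    rw [e, Finset.sum_range_succ, Finset.sum_range_succ, Finset.sum_range_succ _ (2 * s + 2 + 1),
      Finset.sum_range_succ _ (2 * s + 2), ih]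
    have a1 : (2 * s + 2) / 2 = s + 1 := by omega
    have a2 : (2 * s + 2 + 1) / 2 = s + 1 := by omega
    rw [a1, a2]
    ring

theorem det_lemma {f : ℂ → ℂ} (hf : Differentiable ℂ f) (x₀ : ℝ) (s D : ℕ) (hD : D = 2 * s + 2)
    (hW : (wr (fam f D) x₀).det ≠ 0) (ι : Fin D → ℕ)
    (hι : Function.Injective ι) (K : ℝ) :
    ∀ᶠ t : ℕ in atTop, ∀ p₀ : ℤ, x₀ ≤ p₀ / (t : ℝ) ^ 3 → p₀ / (t : ℝ) ^ 3 ≤ x₀ + 1 / (t : ℝ) ^ 3 →
      ∀ (a : Fin D → ℤ) (b : Fin D → ℕ), (∀ i, 0 < b i) →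
      (∀ i, b i ≤ t ^ (s + 1)) →
      (∀ i, ‖f (((p₀ + ι i) / (t : ℝ) ^ 3 : ℝ) : ℂ) - (a i : ℂ) / (b i : ℂ)‖
        ≤ K * (1 / (t : ℝ) ^ 3) ^ D) → False := by
  obtain ⟨δ, hδ, K₁, hpert⟩ := perturb ι hι
  let T : Matrix (Fin D) (Fin D) ℂ :=
    Matrix.of fun m n => iteratedDeriv m (fam f D n) x₀ / ((m : ℕ).factorial : ℂ)
  have hT : T.det ≠ 0 := by
    have : T = diagonal (fun m : Fin D => (((m : ℕ).factorial : ℂ))⁻¹) * wr (fam f D) x₀ := by
      ext m n
      simp [T, wr, diagonal_mul, div_eq_inv_mul]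
    rw [this, det_mul, det_diagonal]
    refine mul_ne_zero (Finset.prod_ne_zero_iff.mpr fun m _ => inv_ne_zero ?_) hW
    exact_mod_cast (Nat.factorial_pos _).ne'
  choose C hC using fun n => taylor_bound (fam_diff hf D n) (x₀ : ℂ) D
  obtain ⟨ρ, hρ, hball⟩ := Metric.eventually_nhds_iff_ball.mp (eventually_all.mpr hC)
  let Mx : ℝ := ∑ i, (ι i : ℝ) + 1
  have hMx : ∀ i, (ι i : ℝ) + 1 ≤ Mx := fun i => by
    have := Finset.single_le_sum (f := fun i => (ι i : ℝ)) (fun i _ => Nat.cast_nonneg _)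
      (Finset.mem_univ i)
    simp only [Mx]; linarith
  have hMx0 : 0 < Mx := by
    have : 0 ≤ ∑ i, (ι i : ℝ) := Finset.sum_nonneg fun i _ => Nat.cast_nonneg _
    simp only [Mx]; linarith
  let C₀ : ℝ := ∑ n, |C n|
  have hC₀ : ∀ n, C n ≤ C₀ := fun n => (le_abs_self _).trans
    (Finset.single_le_sum (f := fun n => |C n|) (fun i _ => abs_nonneg _) (Finset.mem_univ n))
  have hC₀0 : 0 ≤ C₀ := Finset.sum_nonneg fun i _ => abs_nonneg _
  let C₁ : ℝ := C₀ * Mx ^ D + (|x₀| + 1) ^ D * |K|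
  have hC₁0 : 0 ≤ C₁ := by positivity
  let C₂ : ℝ := ∑ n, ∑ m, ‖T⁻¹ n m‖
  have hr0 : Tendsto (fun t : ℕ => 1 / (t : ℝ) ^ 3) atTop (𝓝 0) := by
    simp only [one_div]
    exact tendsto_inv_atTop_zero.comp
      ((tendsto_pow_atTop (by norm_num)).comp tendsto_natCast_atTop_atTop)
  have ev1 : ∀ᶠ t : ℕ in atTop, 1 / (t : ℝ) ^ 3 * Mx < min ρ 1 := by
    have := hr0.mul_const Mx
    rw [zero_mul] at this
    exact this.eventually_lt_const (lt_min hρ one_pos)
  have ev2 : ∀ᶠ t : ℕ in atTop, C₁ * C₂ * (1 / (t : ℝ) ^ 3) < δ := by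
    have := hr0.const_mul (C₁ * C₂)
    rw [mul_zero] at this
    exact this.eventually_lt_const hδ
  have ev3 : ∀ᶠ t : ℕ in atTop, K₁ * ‖T.det‖ < t :=
    tendsto_natCast_atTop_atTop.eventually_gt_atTop _
  filter_upwards [ev1, ev2, ev3, eventually_ge_atTop 1] with t e1 e2 e3 e4
  intro p₀ hp1 hp2 a b hb0 hb1 hab
  have ht1 : (1 : ℝ) ≤ t := by exact_mod_cast e4
  have ht0 : (0 : ℝ) < t := by linarith
  set q : ℝ := (t : ℝ) ^ 3 with hq
  have hq1 : 1 ≤ q := one_le_pow₀ ht1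
  have hq0 : 0 < q := by linarith
  set r : ℝ := 1 / q with hr
  have hrq : r * q = 1 := by rw [hr]; field_simp
  have hr0' : 0 < r := by positivity
  have hr1 : r ≤ 1 := by rw [hr, div_le_one hq0]; exact hq1
  let u : ℝ := p₀ - x₀ * q
  have hu0 : 0 ≤ u := by
    rw [le_div_iff₀ hq0] at hp1
    simp only [u]; linarith
  have hu1 : u ≤ 1 := by
    rw [div_le_iff₀ hq0, add_mul, hrq] at hp2
    simp only [u]; linarith
  let x : Fin D → ℝ := fun i => (p₀ + ι i) / q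
  have hx : ∀ i, x i = x₀ + r * (ι i + u) := by
    intro i
    simp only [x, u, hr]
    field_simp
    ring
  have hw : ∀ i, |r * (ι i + u)| ≤ r * Mx := by
    intro i
    rw [abs_of_nonneg (by positivity)]
    have := hMx i
    gcongr
    linarith
  let A : Matrix (Fin D) (Fin D) ℂ :=
    Matrix.of fun i n => (x i : ℂ) ^ ((n : ℕ) / 2) * ((a i : ℂ) / (b i : ℂ)) ^ ((n : ℕ) % 2)
  let V : Matrix (Fin D) (Fin D) ℂ := vandermonde (fun i => (ι i : ℂ) + u)
  let R : Matrix (Fin D) (Fin D) ℂ := diagonal fun m => (r : ℂ) ^ (m : ℕ)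
  let R' : Matrix (Fin D) (Fin D) ℂ := diagonal fun m => (q : ℂ) ^ (m : ℕ)
  let E : Matrix (Fin D) (Fin D) ℂ := A - V * R * T
  have hE : ∀ i n, ‖E i n‖ ≤ C₁ * r ^ D := by
    intro i n
    have hh : ‖((r * (ι i + u) : ℝ) : ℂ)‖ ≤ r * Mx := by
      rw [Complex.norm_real]; exact hw i
    have h1 := hball ((r * (ι i + u) : ℝ) : ℂ) (by
      rw [mem_ball_zero_iff]
      exact lt_of_le_of_lt hh (lt_of_lt_of_le e1 (min_le_left _ _))) n
    have hxi : (x₀ : ℂ) + ((r * (ι i + u) : ℝ) : ℂ) = (x i : ℂ) := by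
      rw [hx i]; push_cast; ring
    rw [hxi] at h1
    have h2 : (V * R * T) i n = ∑ m : Fin D, ((r * (ι i + u) : ℝ) : ℂ) ^ (m : ℕ) *
        (iteratedDeriv m (fam f D n) x₀ / ((m : ℕ).factorial : ℂ)) := by
      rw [Matrix.mul_apply]
      apply Finset.sum_congr rfl
      intro m _
      simp only [V, R, T, mul_diagonal, vandermonde_apply, Matrix.of_apply]
      push_cast
      rw [mul_pow]
      ring
    have h3 : ‖A i n - fam f D n (x i)‖ ≤ (|x₀| + 1) ^ D * |K| * r ^ D := by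
      simp only [A, fam, Matrix.of_apply]
      rw [← mul_sub, norm_mul, mul_assoc]
      apply mul_le_mul _ _ (norm_nonneg _) (by positivity)
      · rw [norm_pow, Complex.norm_real, Real.norm_eq_abs]
        have hxa : |x i| ≤ |x₀| + 1 := by
          rw [hx i]
          refine (abs_add_le _ _).trans ?_
          have := (hw i).trans (e1.le.trans (min_le_right _ _))
          linarith
        calc |x i| ^ ((n : ℕ) / 2) ≤ (|x₀| + 1) ^ ((n : ℕ) / 2) :=
              pow_le_pow_left₀ (abs_nonneg _) hxa _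
          _ ≤ (|x₀| + 1) ^ D := pow_le_pow_right₀ (by linarith [abs_nonneg x₀]) (by omega)
      · rcases Nat.mod_two_eq_zero_or_one (n : ℕ) with h | h
        · rw [h]; simp only [pow_zero, sub_self, norm_zero]; positivity
        · rw [h, pow_one, pow_one, norm_sub_rev]
          refine (hab i).trans ?_
          gcongr
          exact le_abs_self K
    have h4 : E i n = (A i n - fam f D n (x i)) + (fam f D n (x i) - (V * R * T) i n) := by
      simp only [E, Matrix.sub_apply]; ring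
    rw [h4, h2]
    refine (norm_add_le _ _).trans ?_
    have h5 : C n * ‖((r * (ι i + u) : ℝ) : ℂ)‖ ^ D ≤ C₀ * Mx ^ D * r ^ D := by
      calc C n * ‖((r * (ι i + u) : ℝ) : ℂ)‖ ^ D ≤ C₀ * ‖((r * (ι i + u) : ℝ) : ℂ)‖ ^ D := by
            gcongr; exact hC₀ n
        _ ≤ C₀ * (r * Mx) ^ D := by gcongr
        _ = _ := by rw [mul_pow]; ring
    simp only [C₁]
    linarith
  let E' : Matrix (Fin D) (Fin D) ℂ := E * T⁻¹ * R'
  have hE' : ∀ i m, ‖E' i m‖ < δ := by
    intro i m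
    refine lt_of_le_of_lt ?_ e2
    simp only [E', R', mul_diagonal]
    rw [norm_mul, Matrix.mul_apply, norm_pow, Complex.norm_real, Real.norm_eq_abs,
      abs_of_pos hq0]
    have h1 : ‖∑ n, E i n * T⁻¹ n m‖ ≤ C₁ * r ^ D * C₂ := by
      refine (norm_sum_le _ _).trans ?_
      simp only [C₂]
      rw [Finset.mul_sum]
      apply Finset.sum_le_sum
      intro n _
      rw [norm_mul]
      apply mul_le_mul (hE i n) _ (norm_nonneg _) (by positivity)
      exact Finset.single_le_sum (f := fun m => ‖T⁻¹ n m‖) (fun _ _ => norm_nonneg _)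
        (Finset.mem_univ m)
    have h2 : r ^ D * q ^ (m : ℕ) ≤ r := by
      obtain ⟨k, hk⟩ : ∃ k, D = (m : ℕ) + 1 + k := ⟨D - (m + 1), by have := m.2; omega⟩
      have : r ^ D * q ^ (m : ℕ) = (r * q) ^ (m : ℕ) * r * r ^ k := by
        have : r ^ D = r ^ ((m : ℕ) + 1 + k) := congrArg _ hk
        rw [this]
        ring
      rw [this, hrq, one_pow, one_mul]
      exact mul_le_of_le_one_right hr0'.le (pow_le_one₀ hr0'.le hr1)
    have hC₂0 : 0 ≤ C₂ := Finset.sum_nonneg fun _ _ => Finset.sum_nonneg fun _ _ => norm_nonneg _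
    calc ‖∑ n, E i n * T⁻¹ n m‖ * q ^ (m : ℕ) ≤ C₁ * r ^ D * C₂ * q ^ (m : ℕ) := by gcongr
      _ = C₁ * C₂ * (r ^ D * q ^ (m : ℕ)) := by ring
      _ ≤ C₁ * C₂ * r := by gcongr
  obtain ⟨hne, hle⟩ := hpert u hu0 hu1 E' hE'
  have hRR : R' * R = 1 := by
    simp only [R, R', diagonal_mul_diagonal]
    rw [← diagonal_one]
    congr 1
    funext m
    rw [← mul_pow, ← Complex.ofReal_mul, mul_comm, hrq]
    simp
  have hA : A = (V + E') * R * T := by
    have : E' * R * T = E := by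
      simp only [E']
      rw [Matrix.mul_assoc (E * T⁻¹), hRR, Matrix.mul_one, Matrix.mul_assoc,
        Matrix.nonsing_inv_mul _ (Ne.isUnit hT), Matrix.mul_one]
    rw [Matrix.add_mul, Matrix.add_mul, this]
    simp [E]
  let Z : Matrix (Fin D) (Fin D) ℤ :=
    Matrix.of fun i n => (p₀ + ι i) ^ ((n : ℕ) / 2) * (if (n : ℕ) % 2 = 0 then (b i : ℤ) else a i)
  have hZ : Z.map (Int.castRingHom ℂ) = diagonal (fun i => (b i : ℂ)) * A *
      diagonal (fun n : Fin D => (q : ℂ) ^ ((n : ℕ) / 2)) := by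
    ext i n
    have hb : (b i : ℂ) ≠ 0 := by exact_mod_cast (hb0 i).ne'
    have hqc : (q : ℂ) ≠ 0 := by exact_mod_cast hq0.ne'
    simp only [Z, A, x, Matrix.map_apply, Matrix.of_apply, mul_diagonal, diagonal_mul,
      eq_intCast]
    push_cast
    rw [div_pow]
    rcases Nat.mod_two_eq_zero_or_one (n : ℕ) with h | h
    · simp only [h, if_true, pow_zero]
      field_simp
    · simp only [h, one_ne_zero, if_false, pow_one]
      field_simp
  have hdet : (Z.det : ℂ) = (∏ i, (b i : ℂ)) * ((V + E').det * (r : ℂ) ^ (∑ m : Fin D, (m : ℕ))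
      * T.det) * (q : ℂ) ^ (∑ n : Fin D, (n : ℕ) / 2) := by
    have := (Int.castRingHom ℂ).map_det Z
    rw [RingHom.mapMatrix_apply, hZ, eq_intCast] at this
    rw [this, det_mul, det_mul, det_diagonal, det_diagonal, hA, det_mul, det_mul]
    simp only [R, det_diagonal, Finset.prod_pow_eq_pow_sum]
  have hZne : Z.det ≠ 0 := by
    intro h0
    rw [h0, Int.cast_zero] at hdet
    refine absurd hdet.symm (mul_ne_zero (mul_ne_zero ?_ (mul_ne_zero (mul_ne_zero hne ?_) hT)) ?_)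
    · exact Finset.prod_ne_zero_iff.mpr fun i _ => by exact_mod_cast (hb0 i).ne'
    · exact pow_ne_zero _ (by exact_mod_cast hr0'.ne')
    · exact pow_ne_zero _ (by exact_mod_cast hq0.ne')
  have h1 : (1 : ℝ) ≤ ‖(Z.det : ℂ)‖ := by
    rw [Complex.norm_intCast]
    exact_mod_cast Int.one_le_abs hZne
  have hsum : ∑ m : Fin D, (m : ℕ) = ∑ n : Fin D, (n : ℕ) / 2 + (s + 1) ^ 2 := by
    subst hD
    exact sum_exp s
  rw [hdet, hsum] at h1
  simp only [norm_mul, norm_pow, norm_prod, Complex.norm_natCast, Complex.norm_real,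
    Real.norm_eq_abs, abs_of_pos hq0, abs_of_pos hr0'] at h1
  have h2 : ∏ i, (b i : ℝ) ≤ ((t : ℝ) ^ (s + 1)) ^ D := by
    calc ∏ i, (b i : ℝ) ≤ ∏ _i : Fin D, (t : ℝ) ^ (s + 1) := by
          apply Finset.prod_le_prod (fun _ _ => Nat.cast_nonneg _)
          intro i _
          exact_mod_cast hb1 i
      _ = _ := by simp
  have h3 : (∏ i, (b i : ℝ)) * (‖(V + E').det‖ * r ^ (∑ n : Fin D, (n : ℕ) / 2 + (s + 1) ^ 2)
      * ‖T.det‖) * q ^ (∑ n : Fin D, (n : ℕ) / 2)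
      = (∏ i, (b i : ℝ)) * r ^ ((s + 1) ^ 2) * (‖(V + E').det‖ * ‖T.det‖)
        * (r * q) ^ (∑ n : Fin D, (n : ℕ) / 2) := by
    rw [pow_add, mul_pow]; ring
  rw [h3, hrq, one_pow, mul_one] at h1
  have h4 : ((t : ℝ) ^ (s + 1)) ^ D * r ^ ((s + 1) ^ 2) * t ≤ 1 := by
    have e : ((t : ℝ) ^ (s + 1)) ^ D * t ≤ q ^ ((s + 1) ^ 2) := by
      rw [hq, ← pow_mul, ← pow_mul, ← pow_succ]
      apply pow_le_pow_right₀ ht1
      rw [hD]
      nlinarith
    calc ((t : ℝ) ^ (s + 1)) ^ D * r ^ ((s + 1) ^ 2) * t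
        = ((t : ℝ) ^ (s + 1)) ^ D * t * r ^ ((s + 1) ^ 2) := by ring
      _ ≤ q ^ ((s + 1) ^ 2) * r ^ ((s + 1) ^ 2) := by gcongr
      _ = 1 := by rw [← mul_pow, mul_comm, hrq, one_pow]
  have h5 : ‖(V + E').det‖ * ‖T.det‖ < t :=
    lt_of_le_of_lt (mul_le_mul_of_nonneg_right hle (norm_nonneg _)) e3
  have h6 : (∏ i, (b i : ℝ)) * r ^ ((s + 1) ^ 2) * (‖(V + E').det‖ * ‖T.det‖)
      < ((t : ℝ) ^ (s + 1)) ^ D * r ^ ((s + 1) ^ 2) * t := by
    apply mul_lt_mul' _ h5 (by positivity) (by positivity)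
    gcongr
  linarith

end Pool.Agent.H559Z.Mah
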