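import Mathlib

/-!
Every interval that is not too short holds a number that is badly approximable from a given
denominator on.
-/

set_option autoImplicit false

namespace Pool.Agent.H559Z.Mah

open MeasureTheory Filter Set

theorem vol_bad (y₁ y₂ : ℝ) (h : y₁ ≤ y₂) (b : ℕ) (hb : 2 ≤ b) :
    volume {y ∈ Icc y₁ y₂ | ∃ a : ℤ, |y - a / b| < 2 / (b : ℝ) ^ 12}
      ≤ ENNReal.ofReal ((b * (y₂ - y₁) + 3) * (4 / (b : ℝ) ^ 12)) := by
  have hb2 : (2 : ℝ) ≤ b := by exact_mod_cast hb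
  have hb0 : (0 : ℝ) < b := by linarith
  let F : Finset ℤ := Finset.Icc ⌊b * y₁⌋ (⌊b * y₂⌋ + 1)
  have hsub : {y ∈ Icc y₁ y₂ | ∃ a : ℤ, |y - a / b| < 2 / (b : ℝ) ^ 12}
      ⊆ ⋃ a ∈ F, Metric.ball ((a : ℝ) / b) (2 / (b : ℝ) ^ 12) := by
    rintro y ⟨⟨h1, h2⟩, a, ha⟩
    simp only [mem_iUnion]
    refine ⟨a, ?_, by rwa [Metric.mem_ball, Real.dist_eq]⟩
    have h3 : |b * y - a| < 1 := by
      have e : b * y - a = b * (y - a / b) := by field_simp
      rw [e, abs_mul, abs_of_pos hb0]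
      calc b * |y - a / b| < b * (2 / (b : ℝ) ^ 12) := by gcongr
        _ = 2 / (b : ℝ) ^ 11 := by field_simp
        _ ≤ 1 := by
          rw [div_le_one (by positivity)]
          calc (2 : ℝ) ≤ b ^ 1 := by simpa using hb2
            _ ≤ b ^ 11 := pow_le_pow_right₀ (by linarith) (by norm_num)
    rw [abs_lt] at h3
    have h4 : b * y₁ ≤ b * y := by gcongr
    have h5 : b * y ≤ b * y₂ := by gcongr
    have h6 := Int.floor_le (b * y₁)
    have h7 := Int.lt_floor_add_one (b * y₂)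
    rw [Finset.mem_Icc]
    constructor
    · have : ((⌊b * y₁⌋ : ℤ) : ℝ) < a + 1 := by linarith
      have : ⌊b * y₁⌋ < a + 1 := by exact_mod_cast this
      omega
    · have : (a : ℝ) < (⌊b * y₂⌋ : ℤ) + 2 := by linarith
      have : a < ⌊b * y₂⌋ + 2 := by exact_mod_cast this
      omega
  refine (measure_mono hsub).trans ((measure_biUnion_finset_le _ _).trans ?_)
  simp only [Real.volume_ball, Finset.sum_const, nsmul_eq_mul]
  rw [← ENNReal.ofReal_natCast, ← ENNReal.ofReal_mul (Nat.cast_nonneg _)]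
  apply ENNReal.ofReal_le_ofReal
  have hcard : (F.card : ℝ) ≤ b * (y₂ - y₁) + 3 := by
    have hle : ⌊b * y₁⌋ ≤ ⌊b * y₂⌋ := Int.floor_le_floor (by gcongr)
    have h1 : (F.card : ℤ) = ⌊b * y₂⌋ + 1 + 1 - ⌊b * y₁⌋ := by
      simp only [F]
      rw [Int.card_Icc_of_le]
      omega
    have h2 : (F.card : ℝ) = (⌊b * y₂⌋ : ℤ) + 1 + 1 - (⌊b * y₁⌋ : ℤ) := by exact_mod_cast h1
    have h6 := Int.floor_le (b * y₂)
    have h7 := Int.lt_floor_add_one (b * y₁)
    rw [h2]
    linarith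
  have e : 2 * (2 / (b : ℝ) ^ 12) = 4 / (b : ℝ) ^ 12 := by ring
  rw [e]
  gcongr

theorem exists_good (y₁ y₂ : ℝ) (B : ℕ) (hB : 2 ≤ B) (hlen : 64 ≤ (y₂ - y₁) * (B : ℝ) ^ 10)
    (S : Set ℝ) (hS : S.Countable) :
    ∃ y ∈ Icc y₁ y₂, y ∉ S ∧ (∀ b : ℕ, B ≤ b → ∀ a : ℤ, 2 / (b : ℝ) ^ 12 ≤ |y - a / b|) ∧
      ∀ C : ℝ, ∀ᶠ b : ℕ in atTop, ∀ a : ℤ, C / (b : ℝ) ^ 3 ≤ |y - a / b| := by
  have hB2 : (2 : ℝ) ≤ B := by exact_mod_cast hB
  have hB0 : (0 : ℝ) < B := by linarith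
  set l := y₂ - y₁ with hl
  have hl0 : 0 < l := by
    by_contra hcon
    push Not at hcon
    have : l * (B : ℝ) ^ 10 ≤ 0 := mul_nonpos_of_nonpos_of_nonneg hcon (by positivity)
    linarith
  let bad : ℕ → Set ℝ := fun b =>
    {y ∈ Icc y₁ y₂ | B ≤ b ∧ ∃ a : ℤ, |y - a / b| < 2 / (b : ℝ) ^ 12}
  have hbad : ∀ b, volume (bad b) ≤ ENNReal.ofReal (l / 4 * (1 / (b : ℝ) ^ 2)) := by
    intro b
    by_cases hb : B ≤ b
    · have hb' : (B : ℝ) ≤ b := by exact_mod_cast hb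
      have hb0 : (0 : ℝ) < b := by linarith
      refine le_trans (measure_mono ?_) ((vol_bad y₁ y₂ (by linarith) b (hB.trans hb)).trans
        (ENNReal.ofReal_le_ofReal ?_))
      · rintro y ⟨h1, -, h2⟩
        exact ⟨h1, h2⟩
      · rw [← hl]
        have h9 : (2 : ℝ) ^ 9 ≤ (b : ℝ) ^ 9 := pow_le_pow_left₀ (by norm_num) (by linarith) 9
        have h10 : 64 ≤ l * (b : ℝ) ^ 10 := hlen.trans (by gcongr)
        have e1 : (b * l + 3) * (4 / (b : ℝ) ^ 12) = (4 * (b * l) + 12) / (b : ℝ) ^ 12 := by ring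
        have e2 : l / 4 * (1 / (b : ℝ) ^ 2) = (l * (b : ℝ) ^ 10 / 4) / (b : ℝ) ^ 12 := by
          field_simp
        rw [e1, e2]
        gcongr
        have : 512 * (b * l) ≤ l * (b : ℝ) ^ 10 := by
          have : l * (b : ℝ) ^ 10 = (b : ℝ) ^ 9 * (b * l) := by ring
          rw [this]
          gcongr
          linarith
        linarith
    · have : bad b = ∅ := by
        ext y
        simp [bad, hb]
      simp [this]
  have hsum : volume (⋃ b, bad b) ≤ ENNReal.ofReal (l / 2) := by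
    refine (measure_iUnion_le _).trans ((ENNReal.tsum_le_tsum hbad).trans ?_)
    rw [← ENNReal.ofReal_tsum_of_nonneg (fun b => by positivity)
      (hasSum_zeta_two.summable.mul_left _), tsum_mul_left, hasSum_zeta_two.tsum_eq]
    apply ENNReal.ofReal_le_ofReal
    have : Real.pi ^ 2 / 6 ≤ 2 := by
      have := Real.pi_lt_d2
      have := Real.pi_pos
      nlinarith
    nlinarith
  by_contra hcon
  have hcover : Icc y₁ y₂ ⊆ (⋃ b, bad b) ∪ (S ∪ {y | ¬ ∀ p > (2 : ℝ), ¬ LiouvilleWith p y}) := by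
    intro y hy
    by_contra hn
    simp only [mem_union, not_or] at hn
    obtain ⟨h1, h2, h3⟩ := hn
    apply hcon
    have hgood : ∀ b : ℕ, B ≤ b → ∀ a : ℤ, 2 / (b : ℝ) ^ 12 ≤ |y - a / b| := by
      intro b hb a
      by_contra hlt
      exact h1 (mem_iUnion.mpr ⟨b, hy, hb, a, not_le.mp hlt⟩)
    refine ⟨y, hy, h2, hgood, fun C => ?_⟩
    have h4 : ¬ LiouvilleWith 3 y := by
      have : ∀ p > (2 : ℝ), ¬ LiouvilleWith p y := by simpa using h3
      exact this 3 (by norm_num)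
    unfold LiouvilleWith at h4
    push Not at h4
    filter_upwards [h4 C, eventually_ge_atTop B] with b h5 h6 a
    have hb0 : (0 : ℝ) < b := by
      have : (B : ℝ) ≤ b := by exact_mod_cast h6
      linarith
    have := h5 a (by
      intro he
      have := hgood b h6 a
      rw [← he, sub_self, abs_zero] at this
      have : (0 : ℝ) < 2 / (b : ℝ) ^ 12 := by positivity
      linarith)
    exact_mod_cast this
  have h1 := (measure_mono hcover).trans (measure_union_le (μ := volume) _ _)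
  rw [measure_union_null (hS.measure_zero _) (ae_iff.mp ae_not_liouvilleWith), add_zero, Real.volume_Icc]
    at h1
  have h2 := (ENNReal.ofReal_le_ofReal_iff (by linarith)).mp (h1.trans hsum)
  linarith

end Pool.Agent.H559Z.Mah
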