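import Pool.Agent.H559Z.Mah.Det
import Pool.Agent.H559Z.Mah.Meas

/-!
The nested interval construction of a Liouville number whose image is not a Liouville number.
-/

set_option autoImplicit false

namespace Pool.Agent.H559Z.Mah

open Filter Topology Set

/-- The invariant of the construction. -/
def Inv (g : ℝ → ℝ) (I : Set ℝ) (c : ℝ) (B₀ : ℕ) (u l : ℝ) (B : ℕ) : Prop :=
  Icc u (u + l) ⊆ I ∧ 0 < l ∧ B₀ ≤ B ∧ 128 ≤ c * l * (B : ℝ) ^ 10 ∧
    ∀ x ∈ Icc u (u + l), ∀ b : ℕ, B₀ ≤ b → b < B → ∀ a : ℤ, 1 / (b : ℝ) ^ 12 ≤ |g x - a / b|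

theorem step {f : ℂ → ℂ} (hf : Differentiable ℂ f) (hreal : ∀ x : ℝ, (f (x : ℂ)).im = 0)
    (hnp : ¬ ∃ p : Polynomial ℂ, ∀ z : ℂ, f z = p.eval z) (I : Set ℝ) (c C : ℝ) (hc : 0 < c)
    (hC : 0 < C)
    (hlow : ∀ x ∈ I, ∀ y ∈ I, c * |x - y| ≤ |(f x).re - (f y).re|)
    (hup : ∀ x ∈ I, ∀ y ∈ I, |(f x).re - (f y).re| ≤ C * |x - y|)
    (B₀ : ℕ) (hB₀ : 2 ≤ B₀) (u l : ℝ) (B : ℕ) (h : Inv (fun x => (f x).re) I c B₀ u l B) (k : ℕ) :
    ∃ (u' l' : ℝ) (B' : ℕ), Inv (fun x => (f x).re) I c B₀ u' l' B' ∧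
      Icc u' (u' + l') ⊆ Icc u (u + l) ∧ k ≤ B' ∧
      ∃ p q : ℤ, 1 < q ∧ ∀ x ∈ Icc u' (u' + l'), x ≠ p / q ∧ |x - p / q| < 1 / (q : ℝ) ^ k := by
  classical
  obtain ⟨hI, hl, hB, hlen, hgood⟩ := h
  set g : ℝ → ℝ := fun x => (f x).re with hg
  have hgc : Continuous g :=
    Complex.continuous_re.comp (hf.continuous.comp Complex.continuous_ofReal)
  have hZ := countable_bad hf hnp
  have m1 : u ∈ I := hI ⟨le_rfl, by linarith⟩
  have m2 : u + l / 2 ∈ I := hI ⟨by linarith, by linarith⟩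
  obtain ⟨y, hy, hyS, hy1, hy2⟩ := exists_good (min (g u) (g (u + l / 2)))
    (max (g u) (g (u + l / 2))) B (hB₀.trans hB) (by
      rw [max_sub_min_eq_abs]
      have h1 := hlow _ m2 _ m1
      rw [add_sub_cancel_left, abs_of_pos (by linarith)] at h1
      calc (64 : ℝ) ≤ c * (l / 2) * (B : ℝ) ^ 10 := by linarith
        _ ≤ _ := by gcongr) _ (hZ.image g)
  obtain ⟨x₀, hx₀, rfl⟩ := intermediate_value_uIcc (a := u) (b := u + l / 2) hgc.continuousOn hy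
  rw [uIcc_of_le (by linarith)] at hx₀
  have hW : ∀ D, (wr (fam f D) x₀).det ≠ 0 := fun D hD => hyS ⟨x₀, ⟨D, hD⟩, rfl⟩
  let M : ℕ := (k + 1) * (2 * k + 2) + 1
  obtain ⟨Bm, hBm⟩ := eventually_atTop.mp (hy2 (C * (M + 3) + 1))
  have hr0 : Tendsto (fun t : ℕ => 1 / (t : ℝ) ^ 3) atTop (𝓝 0) := by
    simp only [one_div]
    exact tendsto_inv_atTop_zero.comp
      ((tendsto_pow_atTop (by norm_num)).comp tendsto_natCast_atTop_atTop)
  have ev0 : ∀ᶠ t : ℕ in atTop, ∀ s : Fin (k + 1), ∀ ι : Fin (2 * s + 2) → Fin M,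
      Function.Injective ι → ∀ p₀ : ℤ, x₀ ≤ p₀ / (t : ℝ) ^ 3 →
      p₀ / (t : ℝ) ^ 3 ≤ x₀ + 1 / (t : ℝ) ^ 3 →
      ∀ (a : Fin (2 * s + 2) → ℤ) (b : Fin (2 * s + 2) → ℕ), (∀ i, 0 < b i) →
      (∀ i, b i ≤ t ^ ((s : ℕ) + 1)) →
      (∀ i, ‖f (((p₀ + (ι i : ℕ)) / (t : ℝ) ^ 3 : ℝ) : ℂ) - (a i : ℂ) / (b i : ℂ)‖
        ≤ (1 + 2 * C) * (1 / (t : ℝ) ^ 3) ^ (2 * (s : ℕ) + 2)) → False := by
    rw [eventually_all]
    intro s
    rw [eventually_all]
    intro ι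
    by_cases hι : Function.Injective ι
    · filter_upwards [det_lemma hf x₀ s _ rfl (hW _) (fun i => (ι i : ℕ))
        (Fin.val_injective.comp hι) (1 + 2 * C)] with t ht _
      exact ht
    · exact Eventually.of_forall fun t h => absurd h hι
  have ev1 : ∀ᶠ t : ℕ in atTop, (M + 3) * (1 / (t : ℝ) ^ 3) < l / 2 := by
    have := hr0.const_mul ((M : ℝ) + 3)
    rw [mul_zero] at this
    exact this.eventually_lt_const (by linarith)
  have ev2 : ∀ᶠ t : ℕ in atTop, C * (M + 3) * (1 / (t : ℝ) ^ 3) < 1 / ((Bm : ℝ) + 1) ^ 12 := by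
    have := hr0.const_mul (C * ((M : ℝ) + 3))
    rw [mul_zero] at this
    exact this.eventually_lt_const (by positivity)
  have ev3 : ∀ᶠ t : ℕ in atTop, 128 / c < t := tendsto_natCast_atTop_atTop.eventually_gt_atTop _
  obtain ⟨t, e0, e1, e2, e3, e4, e5, e6⟩ := (ev0.and (ev1.and (ev2.and (ev3.and
    ((eventually_ge_atTop 2).and ((eventually_ge_atTop B₀).and
      (eventually_ge_atTop k))))))).exists
  have ht2 : (2 : ℝ) ≤ t := by exact_mod_cast e4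
  have ht1 : (1 : ℝ) ≤ t := by linarith
  have ht0 : (0 : ℝ) < t := by linarith
  set q : ℝ := (t : ℝ) ^ 3 with hq
  have hq0 : 0 < q := by positivity
  set r : ℝ := 1 / q with hr
  have hr0' : 0 < r := by positivity
  let p₀ : ℤ := ⌈x₀ * q⌉
  have hp1 : x₀ ≤ p₀ / q := by
    rw [le_div_iff₀ hq0]; exact Int.le_ceil _
  have hp2 : p₀ / q ≤ x₀ + r := by
    rw [div_le_iff₀ hq0, add_mul, hr, one_div_mul_cancel hq0.ne']
    exact (Int.ceil_lt_add_one _).le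
  let l' : ℝ := 1 / (t : ℝ) ^ (9 * (k + 1))
  have hl'0 : 0 < l' := by positivity
  have hl' : ∀ n : ℕ, n ≤ 9 * (k + 1) → l' ≤ 1 / (t : ℝ) ^ n := by
    intro n hn
    exact one_div_le_one_div_of_le (by positivity) (pow_le_pow_right₀ ht1 hn)
  have hl'r : l' ≤ r := hl' 3 (by omega)
  let x : Fin M → ℝ := fun i => (p₀ + (i : ℕ)) / q
  have hx : ∀ i, x₀ ≤ x i ∧ x i ≤ x₀ + (M + 1) * r := by
    intro i
    have e : x i = p₀ / q + (i : ℕ) * r := by
      simp only [x, hr]; field_simp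
    have hi : ((i : ℕ) : ℝ) ≤ M := by exact_mod_cast i.2.le
    have : ((i : ℕ) : ℝ) * r ≤ M * r := by gcongr
    have : 0 ≤ ((i : ℕ) : ℝ) * r := by positivity
    rw [e]
    constructor <;> linarith
  have hwin : ∀ i, ∀ z, x i ≤ z → z ≤ x i + l' + l' →
      z ∈ Icc u (u + l) ∧ |z - x₀| ≤ (M + 3) * r := by
    intro i z h1 h2
    obtain ⟨h3, h4⟩ := hx i
    refine ⟨⟨by linarith [hx₀.1], by linarith [hx₀.2]⟩, ?_⟩
    rw [abs_of_nonneg (by linarith)]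
    linarith
  have hx₀I : x₀ ∈ I := hI ⟨hx₀.1, by linarith [hx₀.2]⟩
  have hcand : ∃ i : Fin M, ∀ z ∈ Icc (x i + l') (x i + l' + l'), ∀ b : ℕ, t ≤ b →
      b < t ^ (k + 1) → ∀ a : ℤ, 1 / (b : ℝ) ^ 12 ≤ |g z - a / b| := by
    by_contra hcon
    push Not at hcon
    choose z hz b hb1 hb2 a hab using hcon
    have hb0 : ∀ i, b i ≠ 0 := fun i => by have := hb1 i; omega
    have hlog : ∀ i, Nat.log t (b i) < k + 1 := fun i =>
      Nat.log_lt_of_lt_pow (hb0 i) (hb2 i)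
    let σ : Fin M → Fin (k + 1) := fun i => ⟨Nat.log t (b i), hlog i⟩
    obtain ⟨s, hs⟩ := Fintype.exists_lt_card_fiber_of_mul_lt_card σ (n := 2 * k + 2) (by
      simp [M])
    obtain ⟨ι, hι⟩ : ∃ ι : Fin (2 * s + 2) ↪ Fin M, ∀ i, σ (ι i) = s := by
      have hle : 2 * s + 2 ≤ (Finset.univ.filter fun i => σ i = s).card := by
        have := s.2
        omega
      refine ⟨(Finset.orderEmbOfCardLe _ hle).toEmbedding, fun i => ?_⟩
      simpa using Finset.orderEmbOfCardLe_mem _ hle i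
    have hσ : ∀ i, Nat.log t (b (ι i)) = s := fun i => congrArg Fin.val (hι i)
    refine e0 s ι ι.injective p₀ hp1 hp2 (fun i => a (ι i)) (fun i => b (ι i))
      (fun i => Nat.pos_of_ne_zero (hb0 _)) (fun i => ?_) (fun i => ?_)
    · have := (Nat.lt_pow_succ_log_self (b := t) (by omega) (b (ι i))).le
      rwa [hσ i] at this
    · have e : f (x (ι i)) - (a (ι i) : ℂ) / (b (ι i) : ℂ)
          = ((g (x (ι i)) - a (ι i) / b (ι i) : ℝ) : ℂ) := by
        have : f (x (ι i)) = ((g (x (ι i)) : ℝ) : ℂ) := by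
          apply Complex.ext <;> simp [hg, hreal]
        rw [this]
        push_cast
        ring
      change ‖f (x (ι i)) - (a (ι i) : ℂ) / (b (ι i) : ℂ)‖ ≤ _
      rw [e, Complex.norm_real, Real.norm_eq_abs]
      have hs1 : 1 ≤ (s : ℕ) := by
        rw [← hσ i]
        exact Nat.log_pos (by omega) (hb1 _)
      have hs2 : (s : ℕ) ≤ k := by have := s.2; omega
      have h1 : t ^ (s : ℕ) ≤ b (ι i) := by
        have := Nat.pow_log_le_self t (hb0 (ι i))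
        rwa [hσ i] at this
      have er : r ^ (2 * (s : ℕ) + 2) = 1 / (t : ℝ) ^ (6 * (s : ℕ) + 6) := by
        rw [hr, hq, one_div_pow, ← pow_mul]
        congr 2
        ring
      have h2 : 1 / (b (ι i) : ℝ) ^ 12 ≤ r ^ (2 * (s : ℕ) + 2) := by
        rw [er]
        apply one_div_le_one_div_of_le (by positivity)
        calc (t : ℝ) ^ (6 * (s : ℕ) + 6) ≤ (t : ℝ) ^ ((s : ℕ) * 12) :=
              pow_le_pow_right₀ ht1 (by omega)
          _ = ((t : ℝ) ^ (s : ℕ)) ^ 12 := pow_mul _ _ _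
          _ ≤ _ := by
              apply pow_le_pow_left₀ (by positivity)
              exact_mod_cast h1
      have h3 : l' ≤ r ^ (2 * (s : ℕ) + 2) := by
        rw [er]; exact hl' _ (by omega)
      obtain ⟨hz1, hz2⟩ := hz (ι i)
      have h4 := hup _ (hI (hwin (ι i) (x (ι i)) le_rfl (by linarith)).1) _
        (hI (hwin (ι i) (z (ι i)) (by linarith) hz2).1)
      have h5 : |x (ι i) - z (ι i)| ≤ 2 * r ^ (2 * (s : ℕ) + 2) := by
        rw [abs_sub_comm, abs_of_nonneg (by linarith)]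
        linarith
      have h6 := abs_sub_le (g (x (ι i))) (g (z (ι i))) (a (ι i) / b (ι i))
      have h7 : C * |x (ι i) - z (ι i)| ≤ C * (2 * r ^ (2 * (s : ℕ) + 2)) := by gcongr
      have h8 := hab (ι i)
      have h9 : |g (x (ι i)) - g (z (ι i))| ≤ C * |x (ι i) - z (ι i)| := h4
      linarith
  obtain ⟨i, hi⟩ := hcand
  have htB : t ≤ t ^ (k + 1) := Nat.le_self_pow (by omega) t
  have hsub : Icc (x i + l') (x i + l' + l') ⊆ Icc u (u + l) := fun z hz =>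
    (hwin i z (by linarith [hz.1]) hz.2).1
  refine ⟨x i + l', l', t ^ (k + 1), ⟨hsub.trans hI, hl'0, e5.trans htB, ?_, ?_⟩, hsub,
    e6.trans htB, p₀ + (i : ℕ), (t : ℤ) ^ 3, ?_, ?_⟩
  · have e : c * l' * ((t ^ (k + 1) : ℕ) : ℝ) ^ 10 = c * (t : ℝ) ^ (k + 1) := by
      simp only [l']
      push_cast
      field_simp
      ring
    rw [e]
    rw [div_lt_iff₀ hc] at e3
    have : (t : ℝ) ≤ (t : ℝ) ^ (k + 1) := by exact_mod_cast htB
    nlinarith
  · intro z hz b hb1 hb2 a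
    by_cases h1 : b < B
    · exact hgood z (hsub hz) b hb1 h1 a
    by_cases h2 : t ≤ b
    · exact hi z hz b h2 hb2 a
    push Not at h1 h2
    have hb0 : (1 : ℝ) ≤ b := by
      have : 1 ≤ b := by omega
      exact_mod_cast this
    have h3 := hup _ hx₀I _ (hI (hsub hz))
    have h4 : |x₀ - z| ≤ (M + 3) * r := by
      rw [abs_sub_comm]
      exact (hwin i z (by linarith [hz.1]) hz.2).2
    have h5 : C * |x₀ - z| ≤ C * ((M + 3) * r) := by gcongr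
    have h6 := abs_sub_le (g x₀) (g z) (a / b)
    have h9 : |g x₀ - g z| ≤ C * |x₀ - z| := h3
    by_cases h7 : Bm ≤ b
    · have h8 := hBm b h7 a
      have h10 : r ≤ 1 / (b : ℝ) ^ 3 := by
        apply one_div_le_one_div_of_le (by positivity)
        apply pow_le_pow_left₀ (by positivity)
        exact_mod_cast h2.le
      have h11 : C * ((M + 3) * r) ≤ C * ((M + 3) * (1 / (b : ℝ) ^ 3)) := by gcongr
      have h12 : 1 / (b : ℝ) ^ 12 ≤ 1 / (b : ℝ) ^ 3 :=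
        one_div_le_one_div_of_le (by positivity) (pow_le_pow_right₀ hb0 (by norm_num))
      have e : (C * (M + 3) + 1) / (b : ℝ) ^ 3
          = C * ((M + 3) * (1 / (b : ℝ) ^ 3)) + 1 / (b : ℝ) ^ 3 := by ring
      linarith
    · have h8 := hy1 b h1 a
      have h10 : 1 / ((Bm : ℝ) + 1) ^ 12 ≤ 1 / (b : ℝ) ^ 12 := by
        apply one_div_le_one_div_of_le (by positivity)
        apply pow_le_pow_left₀ (by positivity)
        have : (b : ℝ) ≤ Bm := by exact_mod_cast (not_le.mp h7).le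
        linarith
      have e : 2 / (b : ℝ) ^ 12 = 1 / (b : ℝ) ^ 12 + 1 / (b : ℝ) ^ 12 := by ring
      have e' : C * ((M + 3) * r) = C * (M + 3) * r := by ring
      linarith
  · have : (2 : ℤ) ≤ t := by exact_mod_cast e4
    calc (1 : ℤ) < 2 ^ 3 := by norm_num
      _ ≤ _ := by gcongr
  · intro z hz
    have e : (((p₀ + (i : ℕ) : ℤ) : ℝ)) / (((t : ℤ) ^ 3 : ℤ) : ℝ) = x i := by
      simp only [x, hq]; push_cast; ring
    rw [e]
    refine ⟨by linarith [hz.1] , ?_⟩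
    rw [abs_of_nonneg (by linarith [hz.1])]
    have h1 := hl' (3 * k + 2) (by omega)
    have h2 : 1 / (t : ℝ) ^ (3 * k + 2) ≤ (1 / 4) * (1 / (((t : ℤ) ^ 3 : ℤ) : ℝ) ^ k) := by
      push_cast
      rw [← pow_mul, one_div_mul_one_div, pow_add]
      apply one_div_le_one_div_of_le (by positivity)
      rw [mul_comm]
      gcongr
      nlinarith
    have h3 : 0 < 1 / (((t : ℤ) ^ 3 : ℤ) : ℝ) ^ k := by
      push_cast
      positivity
    linarith [hz.2]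

theorem local_bounds {f : ℂ → ℂ} (hf : Differentiable ℂ f) (hreal : ∀ x : ℝ, (f (x : ℂ)).im = 0)
    (hnp : ¬ ∃ p : Polynomial ℂ, ∀ z : ℂ, f z = p.eval z) :
    ∃ (u l c C : ℝ), 0 < l ∧ 0 < c ∧ 0 < C ∧
      (∀ x ∈ Icc u (u + l), ∀ y ∈ Icc u (u + l), c * |x - y| ≤ |(f x).re - (f y).re|) ∧
      (∀ x ∈ Icc u (u + l), ∀ y ∈ Icc u (u + l), |(f x).re - (f y).re| ≤ C * |x - y|) := by
  have h1 : ∃ z, deriv f z ≠ 0 := by
    by_contra hcon
    push Not at hcon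
    exact hnp ⟨Polynomial.C (f 0), fun z => by simpa using is_const_of_deriv_eq_zero hf hcon z 0⟩
  obtain ⟨z, hz⟩ := h1
  have h2 := countable_zeros hf.deriv hz
  obtain ⟨x₀, hx₀⟩ : ∃ x₀ : ℝ, deriv f x₀ ≠ 0 := by
    by_contra hcon
    push Not at hcon
    rw [eq_univ_of_forall (s := {x : ℝ | deriv f x = 0}) hcon] at h2
    exact Set.not_countable_univ h2
  have hs : HasStrictDerivAt f (deriv f x₀) x₀ := (hf.analyticAt _).hasStrictDerivAt
  have hd : 0 < ‖deriv f x₀‖ := norm_pos_iff.mpr hx₀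
  have h3 := (hs.hasStrictFDerivAt.isLittleO).def (half_pos hd)
  obtain ⟨ρ, hρ, hball⟩ := Metric.eventually_nhds_iff_ball.mp h3
  have key : ∀ x ∈ Icc x₀ (x₀ + ρ / 2), ∀ y ∈ Icc x₀ (x₀ + ρ / 2),
      ‖f x - f y - ((x : ℂ) - y) • deriv f x₀‖ ≤ ‖deriv f x₀‖ / 2 * ‖(x : ℂ) - y‖ := by
    intro x hx y hy
    refine hball ((x : ℂ), (y : ℂ)) ?_
    rw [← ball_prod_same]
    constructor <;> simp only [Metric.mem_ball, Complex.dist_of_im_eq, Complex.ofReal_im,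
      Complex.ofReal_re, Real.dist_eq, abs_lt]
    · constructor <;> linarith [hx.1, hx.2]
    · constructor <;> linarith [hy.1, hy.2]
  have e1 : ∀ x y : ℝ, ‖f x - f y‖ = |(f x).re - (f y).re| := by
    intro x y
    have : f x - f y = (((f x).re - (f y).re : ℝ) : ℂ) := by
      apply Complex.ext <;> simp [hreal]
    rw [this, Complex.norm_real, Real.norm_eq_abs]
  have e2 : ∀ x y : ℝ, ‖(x : ℂ) - y‖ = |x - y| := by
    intro x y
    rw [← Complex.ofReal_sub, Complex.norm_real, Real.norm_eq_abs]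
  refine ⟨x₀, ρ / 2, ‖deriv f x₀‖ / 2, 2 * ‖deriv f x₀‖, by linarith, by linarith, by linarith,
    fun x hx y hy => ?_, fun x hx y hy => ?_⟩
  · have h4 := key x hx y hy
    have h5 := norm_sub_norm_le (((x : ℂ) - y) • deriv f x₀) (f x - f y)
    rw [norm_sub_rev (((x : ℂ) - y) • deriv f x₀), norm_smul, e1, e2] at h5
    rw [e2] at h4
    linarith
  · have h4 := key x hx y hy
    have h5 := norm_sub_norm_le (f x - f y) (((x : ℂ) - y) • deriv f x₀)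
    rw [norm_smul, e1, e2] at h5
    rw [e2] at h4
    have := mul_nonneg hd.le (abs_nonneg (x - y))
    linarith

theorem main {f : ℂ → ℂ} (hf : Differentiable ℂ f) (hreal : ∀ x : ℝ, (f (x : ℂ)).im = 0)
    (hnp : ¬ ∃ p : Polynomial ℂ, ∀ z : ℂ, f z = p.eval z) :
    ∃ x : ℝ, Liouville x ∧ ¬ Liouville (f (x : ℂ)).re := by
  obtain ⟨u₀, l₀, c, C, hl₀, hc, hC, hlow, hup⟩ := local_bounds hf hreal hnp
  obtain ⟨B₀, hB₀, hB₁⟩ : ∃ B₀ : ℕ, 2 ≤ B₀ ∧ 128 ≤ c * l₀ * (B₀ : ℝ) ^ 10 := by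
    obtain ⟨n, hn⟩ := exists_nat_gt (128 / (c * l₀))
    refine ⟨n + 2, by omega, ?_⟩
    rw [div_lt_iff₀ (by positivity)] at hn
    have h1 : (n : ℝ) ≤ ((n + 2 : ℕ) : ℝ) ^ 10 := by
      have : n ≤ (n + 2) ^ 10 := le_trans (by omega) (Nat.le_self_pow (by norm_num) (n + 2))
      exact_mod_cast this
    have := mul_pos hc hl₀
    nlinarith
  let g : ℝ → ℝ := fun x => (f x).re
  let I : Set ℝ := Icc u₀ (u₀ + l₀)
  let St := {s : ℝ × ℝ × ℕ // Inv g I c B₀ s.1 s.2.1 s.2.2}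
  have hstep : ∀ (s : St) (k : ℕ), ∃ s' : St,
      Icc s'.1.1 (s'.1.1 + s'.1.2.1) ⊆ Icc s.1.1 (s.1.1 + s.1.2.1) ∧ k ≤ s'.1.2.2 ∧
      ∃ p q : ℤ, 1 < q ∧ ∀ x ∈ Icc s'.1.1 (s'.1.1 + s'.1.2.1),
        x ≠ p / q ∧ |x - p / q| < 1 / (q : ℝ) ^ k := by
    intro s k
    obtain ⟨u', l', B', h1, h2⟩ := step hf hreal hnp I c C hc hC hlow hup B₀ hB₀ _ _ _ s.2 k
    exact ⟨⟨(u', l', B'), h1⟩, h2⟩
  choose F hF using hstep
  let s₀ : St := ⟨(u₀, l₀, B₀), subset_rfl, hl₀, le_rfl, hB₁, fun x _ b h1 h2 => absurd h2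
    (not_lt.mpr h1)⟩
  let seq : ℕ → St := fun n => Nat.rec s₀ (fun k s => F s k) n
  have hseq : ∀ n, seq (n + 1) = F (seq n) n := fun n => rfl
  let J : ℕ → Set ℝ := fun n => Icc (seq n).1.1 ((seq n).1.1 + (seq n).1.2.1)
  obtain ⟨x, hx⟩ := IsCompact.nonempty_iInter_of_sequence_nonempty_isCompact_isClosed J
    (fun n => (hF (seq n) n).1)
    (fun n => nonempty_Icc.mpr (by linarith [(seq n).2.2.1]))
    isCompact_Icc (fun n => isClosed_Icc)
  rw [mem_iInter] at hx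
  refine ⟨x, fun n => ?_, fun hL => ?_⟩
  · obtain ⟨p, q, hq, h⟩ := (hF (seq n) n).2.2
    exact ⟨p, q, hq, h x (hx (n + 1))⟩
  · obtain ⟨b, ⟨a, -, ha⟩, hb⟩ :=
      ((hL.frequently_exists_num 12).and_eventually (eventually_ge_atTop B₀)).exists
    have h1 := (seq (b + 2)).2.2.2.2.2 x (hx (b + 2)) b hb
      (lt_of_lt_of_le (Nat.lt_succ_self b) (hF (seq (b + 1)) (b + 1)).2.1) a
    exact absurd ha (not_lt.mpr h1)

end Pool.Agent.H559Z.Mah
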