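import Mathlib

/-!
Linearly independent entire functions have a Wronskian that does not vanish identically.
-/

set_option autoImplicit false

namespace Pool.Agent.H559Z.Mah

open Matrix Filter Topology

/-- The Wronskian matrix. -/
noncomputable def wr {D : ℕ} (φ : Fin D → ℂ → ℂ) (z : ℂ) : Matrix (Fin D) (Fin D) ℂ :=
  Matrix.of fun m n => iteratedDeriv m (φ n) z

theorem differentiable_det {D : ℕ} (A : ℂ → Matrix (Fin D) (Fin D) ℂ)
    (h : ∀ i j, Differentiable ℂ fun z => A z i j) : Differentiable ℂ fun z => (A z).det := by
  simp only [Matrix.det_apply, Units.smul_def]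
  apply Differentiable.fun_sum
  intro σ _
  apply Differentiable.const_smul
  exact Differentiable.fun_finsetProd (fun i _ => h _ _)

theorem diff_iter {f : ℂ → ℂ} (hf : Differentiable ℂ f) (m : ℕ) :
    Differentiable ℂ (iteratedDeriv m f) :=
  hf.contDiff.differentiable_iteratedDeriv' m

theorem differentiable_wr {D : ℕ} {φ : Fin D → ℂ → ℂ} (h : ∀ n, Differentiable ℂ (φ n)) :
    Differentiable ℂ fun z => (wr φ z).det :=
  differentiable_det _ fun i j => diff_iter (h j) i

theorem exists_wr_ne_zero : ∀ (D : ℕ) (φ : Fin D → ℂ → ℂ), (∀ n, Differentiable ℂ (φ n)) →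
    LinearIndependent ℂ φ → ∃ z, (wr φ z).det ≠ 0 := by
  intro D
  induction D with
  | zero => intro φ _ _; exact ⟨0, by simp⟩
  | succ D ih =>
    intro φ hφ hli
    by_contra hcon
    push Not at hcon
    obtain ⟨z₀, hz₀⟩ := ih (fun n => φ n.castSucc) (fun n => hφ _)
      (hli.comp _ (Fin.castSucc_injective D))
    let c : Fin (D + 1) → ℂ → ℂ := fun n z => (wr φ z).adjugate n (Fin.last D)
    have hc : ∀ n, Differentiable ℂ (c n) := by
      intro n
      simp only [c, adjugate_fin_succ_eq_det_submatrix]
      apply Differentiable.const_mul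
      exact differentiable_det _ fun i j => diff_iter (hφ _) _
    have hlast : ∀ z, c (Fin.last D) z = (wr (fun n => φ n.castSucc) z).det := by
      intro z
      simp only [c, adjugate_fin_succ_eq_det_submatrix]
      rw [← two_mul, pow_mul]
      simp only [even_two, Even.neg_pow, one_pow, one_mul]
      congr 1
      ext i j
      simp [wr]
    have hrel : ∀ (m : Fin (D + 1)) z, ∑ n, iteratedDeriv m (φ n) z * c n z = 0 := by
      intro m z
      have := congrFun (congrFun (Matrix.mul_adjugate (wr φ z)) m) (Fin.last D)
      rw [hcon z] at this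
      simpa [Matrix.mul_apply, wr, c] using this
    have hrel' : ∀ (m : Fin D) z, ∑ n, iteratedDeriv m (φ n) z * deriv (c n) z = 0 := by
      intro m z
      have h1 : HasDerivAt (fun z => ∑ n, iteratedDeriv m (φ n) z * c n z)
          (∑ n, (iteratedDeriv (m + 1) (φ n) z * c n z
            + iteratedDeriv m (φ n) z * deriv (c n) z)) z := by
        apply HasDerivAt.fun_sum
        intro n _
        rw [iteratedDeriv_succ]
        exact ((diff_iter (hφ n) m) z).hasDerivAt.mul ((hc n) z).hasDerivAt
      have h2 : (fun z => ∑ n, iteratedDeriv m (φ n) z * c n z) = fun _ => 0 := by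
        funext w
        exact hrel m.castSucc w
      rw [h2] at h1
      have h3 := h1.unique (hasDerivAt_const z 0)
      rw [Finset.sum_add_distrib] at h3
      have h4 := hrel m.succ z
      simp only [Fin.val_succ] at h4
      rw [h4, zero_add] at h3
      exact h3
    have hev : ∀ᶠ z in 𝓝 z₀, c (Fin.last D) z ≠ 0 := by
      apply ContinuousAt.eventually_ne (hc _).continuous.continuousAt
      rw [hlast]; exact hz₀
    obtain ⟨ρ, hρ, hball⟩ := Metric.eventually_nhds_iff_ball.mp hev
    have he : ∀ z ∈ Metric.ball z₀ ρ, ∀ n,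
        deriv (c n) z * c (Fin.last D) z - c n z * deriv (c (Fin.last D)) z = 0 := by
      intro z hz
      have hdet : (wr (fun n => φ n.castSucc) z).det ≠ 0 := by rw [← hlast]; exact hball z hz
      let e : Fin D → ℂ := fun n =>
        deriv (c n.castSucc) z * c (Fin.last D) z - c n.castSucc z * deriv (c (Fin.last D)) z
      have hmv : (wr (fun n => φ n.castSucc) z).mulVec e = 0 := by
        funext m
        have a1 := hrel m.castSucc z
        have a2 := hrel' m z
        rw [Fin.sum_univ_castSucc] at a1 a2
        simp only [Fin.val_castSucc] at a1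
        have : (wr (fun n => φ n.castSucc) z).mulVec e m =
            (∑ n : Fin D, iteratedDeriv m (φ n.castSucc) z * deriv (c n.castSucc) z)
              * c (Fin.last D) z
            - (∑ n : Fin D, iteratedDeriv m (φ n.castSucc) z * c n.castSucc z)
              * deriv (c (Fin.last D)) z := by
          simp only [Matrix.mulVec, dotProduct, wr, Matrix.of_apply, e, Finset.sum_mul,
            ← Finset.sum_sub_distrib]
          apply Finset.sum_congr rfl
          intro n _
          ring
        rw [this, Pi.zero_apply]
        linear_combination c (Fin.last D) z * a2 - deriv (c (Fin.last D)) z * a1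
      have h0 := Matrix.eq_zero_of_mulVec_eq_zero hdet hmv
      intro n
      refine Fin.lastCases ?_ (fun n => congrFun h0 n) n
      ring
    have hconst : ∀ n, ∀ z ∈ Metric.ball z₀ ρ,
        c n z / c (Fin.last D) z = c n z₀ / c (Fin.last D) z₀ := by
      intro n z hz
      have hd : DifferentiableOn ℂ (fun z => c n z / c (Fin.last D) z) (Metric.ball z₀ ρ) :=
        (hc n).differentiableOn.div (hc _).differentiableOn hball
      refine Metric.isOpen_ball.is_const_of_deriv_eq_zero (convex_ball z₀ ρ).isPreconnected hd ?_
        hz (Metric.mem_ball_self hρ)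
      intro w hw
      have := (((hc n) w).hasDerivAt.div ((hc (Fin.last D)) w).hasDerivAt (hball w hw)).deriv
      change deriv (c n / c (Fin.last D)) w = 0
      rw [this, he w hw n, zero_div]
    let lam : Fin (D + 1) → ℂ := fun n => c n z₀ / c (Fin.last D) z₀
    have hsum : ∀ z ∈ Metric.ball z₀ ρ, ∑ n, lam n * φ n z = 0 := by
      intro z hz
      have a1 := hrel 0 z
      simp only [Fin.val_zero, iteratedDeriv_zero] at a1
      have : ∑ n, lam n * φ n z = (∑ n, φ n z * c n z) / c (Fin.last D) z := by
        rw [Finset.sum_div]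
        apply Finset.sum_congr rfl
        intro n _
        simp only [lam]
        rw [← hconst n z hz]
        ring
      rw [this, a1, zero_div]
    have han : AnalyticOnNhd ℂ (fun z => ∑ n, lam n * φ n z) Set.univ := by
      apply DifferentiableOn.analyticOnNhd _ isOpen_univ
      apply Differentiable.differentiableOn
      apply Differentiable.fun_sum
      intro n _
      exact (hφ n).const_mul _
    have hzero := han.eqOn_zero_of_preconnected_of_eventuallyEq_zero isPreconnected_univ
      (Set.mem_univ z₀) (Metric.eventually_nhds_iff_ball.mpr ⟨ρ, hρ, hsum⟩)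
    have := Fintype.linearIndependent_iff.mp hli lam (by
      funext z
      simpa using hzero (Set.mem_univ z)) (Fin.last D)
    simp only [lam] at this
    rw [div_self (hball z₀ (Metric.mem_ball_self hρ))] at this
    exact one_ne_zero this

theorem countable_zeros {F : ℂ → ℂ} (hF : Differentiable ℂ F) {z : ℂ} (hz : F z ≠ 0) :
    {x : ℝ | F x = 0}.Countable := by
  have han : AnalyticOnNhd ℂ F Set.univ :=
    hF.differentiableOn.analyticOnNhd isOpen_univ
  have h1 : {w : ℂ | F w = 0}.Countable := by
    apply (HereditarilyLindelofSpace.isLindelof _).countable_of_isDiscrete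
    rcases han.eqOn_zero_or_eventually_ne_zero_of_preconnected isPreconnected_univ with h | h
    · exact absurd (h (Set.mem_univ z)) hz
    · have := isDiscrete_of_codiscreteWithin (U := Set.univ) (s := {w : ℂ | F w = 0}) (by
        simpa [Filter.Eventually, Set.compl_ofPred] using h)
      simpa using this
  exact h1.preimage_of_injOn (f := fun x : ℝ => (x : ℂ)) Complex.ofReal_injective.injOn

/-- An entire function that is a quotient of polynomials is a polynomial. -/
theorem poly_of_rational {f : ℂ → ℂ} (hf : Differentiable ℂ f) :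
    ∀ (n : ℕ) (P Q : Polynomial ℂ), Q.natDegree = n → Q ≠ 0 →
      (∀ z, P.eval z + Q.eval z * f z = 0) → ∃ p : Polynomial ℂ, ∀ z, f z = p.eval z := by
  intro n
  induction n with
  | zero =>
    intro P Q hn hQ h
    rw [Polynomial.eq_C_of_natDegree_eq_zero hn] at hQ h
    have h0 : Q.coeff 0 ≠ 0 := by simpa using hQ
    refine ⟨- Polynomial.C (Q.coeff 0)⁻¹ * P, fun z => ?_⟩
    have := h z
    simp only [Polynomial.eval_C] at this
    simp only [neg_mul, Polynomial.eval_neg, Polynomial.eval_mul, Polynomial.eval_C]
    field_simp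
    linear_combination this
  | succ n ih =>
    intro P Q hn hQ h
    obtain ⟨w, hw⟩ := IsAlgClosed.exists_root Q (by
      rw [Polynomial.degree_eq_natDegree hQ, hn]
      exact_mod_cast Nat.succ_ne_zero n)
    have hPw : P.IsRoot w := by
      have := h w
      rw [hw.eq_zero, zero_mul, add_zero] at this
      exact this
    obtain ⟨Q₁, hQ₁⟩ := Polynomial.dvd_iff_isRoot.mpr hw
    obtain ⟨P₁, hP₁⟩ := Polynomial.dvd_iff_isRoot.mpr hPw
    have hQ₁0 : Q₁ ≠ 0 := by rintro rfl; simp at hQ₁; exact hQ hQ₁
    refine ih P₁ Q₁ ?_ hQ₁0 ?_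
    · rw [hQ₁, Polynomial.natDegree_mul (Polynomial.X_sub_C_ne_zero w) hQ₁0,
        Polynomial.natDegree_X_sub_C] at hn
      omega
    · have hcont : Continuous fun z => P₁.eval z + Q₁.eval z * f z :=
        P₁.continuous.add (Q₁.continuous.mul hf.continuous)
      have hd : Dense ({w}ᶜ : Set ℂ) := dense_compl_singleton w
      have := Continuous.ext_on hd hcont continuous_const (g := fun _ => 0) (fun z hz => by
        have h1 := h z
        rw [hQ₁, hP₁] at h1
        simp only [Polynomial.eval_mul, Polynomial.eval_sub, Polynomial.eval_X,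
          Polynomial.eval_C] at h1
        have hz' : z - w ≠ 0 := sub_ne_zero.mpr hz
        apply mul_left_cancel₀ hz'
        linear_combination h1)
      exact congrFun this

/-- The functions `z ^ j` and `z ^ j * f z`. -/
noncomputable def fam (f : ℂ → ℂ) (D : ℕ) (n : Fin D) (z : ℂ) : ℂ :=
  z ^ (n.val / 2) * f z ^ (n.val % 2)

theorem fam_diff {f : ℂ → ℂ} (hf : Differentiable ℂ f) (D : ℕ) (n : Fin D) :
    Differentiable ℂ (fam f D n) :=
  (differentiable_id.pow _).mul (hf.pow _)

theorem fam_li {f : ℂ → ℂ} (hf : Differentiable ℂ f)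
    (hnp : ¬ ∃ p : Polynomial ℂ, ∀ z : ℂ, f z = p.eval z) (D : ℕ) :
    LinearIndependent ℂ (fam f D) := by
  classical
  rw [Fintype.linearIndependent_iff]
  intro g hg
  let R : ℕ → Polynomial ℂ := fun e =>
    ∑ n : Fin D, if n.val % 2 = e then Polynomial.monomial (n.val / 2) (g n) else 0
  have hco : ∀ n : Fin D, (R (n.val % 2)).coeff (n.val / 2) = g n := by
    intro n
    simp only [R, Polynomial.finsetSum_coeff]
    rw [Finset.sum_eq_single n]
    · simp
    · intro m _ hmn
      split_ifs with h
      · rw [Polynomial.coeff_monomial, if_neg]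
        intro h2
        apply hmn
        apply Fin.ext
        omega
      · simp
    · simp
  have hrel : ∀ z, (R 0).eval z + (R 1).eval z * f z = 0 := by
    intro z
    have := congrFun hg z
    simp only [Finset.sum_apply, Pi.smul_apply, smul_eq_mul, Pi.zero_apply, fam] at this
    rw [← this]
    simp only [R, Polynomial.eval_finsetSum, Finset.sum_mul, ← Finset.sum_add_distrib]
    apply Finset.sum_congr rfl
    intro n _
    rcases Nat.mod_two_eq_zero_or_one n.val with h | h <;> simp [h] <;> ring
  have h1 : R 1 = 0 := by
    by_contra h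
    exact hnp (poly_of_rational hf _ (R 0) (R 1) rfl h hrel)
  have h0 : R 0 = 0 := by
    apply Polynomial.funext
    intro z
    simpa [h1] using hrel z
  intro n
  rw [← hco n]
  rcases Nat.mod_two_eq_zero_or_one n.val with h | h <;> simp [h, h0, h1]

theorem countable_bad {f : ℂ → ℂ} (hf : Differentiable ℂ f)
    (hnp : ¬ ∃ p : Polynomial ℂ, ∀ z : ℂ, f z = p.eval z) :
    {x : ℝ | ∃ D, (wr (fam f D) x).det = 0}.Countable := by
  rw [Set.ofPred_exists]
  apply Set.countable_iUnion
  intro D
  obtain ⟨z, hz⟩ := exists_wr_ne_zero D (fam f D) (fam_diff hf D) (fam_li hf hnp D)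
  exact countable_zeros (differentiable_wr (fam_diff hf D)) hz

end Pool.Agent.H559Z.Mah
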